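import Pool.Agent.L5helper82.UQ.Space

/-!
The commutant of the left translations, the point masses of its elements, and its quotients.
-/

set_option autoImplicit false

namespace Pool.Agent.L5helper82.UQ

open Filter Topology Pool.Agent.R184CA
open scoped ENNReal

variable {𝕜 : Type} [RCLike 𝕜]

variable (𝕜) in
/-- the Banach space (of the functions vanishing at infinity) -/
def H : Type := Sp.H 𝕜

noncomputable instance : NormedAddCommGroup (H 𝕜) := inferInstanceAs (NormedAddCommGroup (Sp.H 𝕜))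

noncomputable instance : NormedSpace 𝕜 (H 𝕜) := inferInstanceAs (NormedSpace 𝕜 (Sp.H 𝕜))

instance : CompleteSpace (H 𝕜) := inferInstanceAs (CompleteSpace (Sp.H 𝕜))

variable (𝕜) in
/-- the projections -/
noncomputable def Q (n : ℕ) : H 𝕜 →L[𝕜] H 𝕜 := Sp.Q 𝕜 n

variable (𝕜) in
/-- left translations -/
noncomputable def Lop (a : List K) : H 𝕜 →L[𝕜] H 𝕜 := Sp.Lop 𝕜 a

variable (𝕜) in
/-- right translations -/
noncomputable def Rop (a : List K) : H 𝕜 →L[𝕜] H 𝕜 := Sp.Rop 𝕜 a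

variable (𝕜) in
/-- the system -/
noncomputable def S : HSys 𝕜 (H 𝕜) := Sp.S 𝕜

lemma S_Q : (S 𝕜).Q = Q 𝕜 := rfl

lemma S_W (n : ℕ) : (S 𝕜).W n = Set.range fun w : List (List Bool) => Lop 𝕜 (w.map ext) := rfl

lemma Q_lim (f : H 𝕜) : Tendsto (fun n => Q 𝕜 n f) atTop (𝓝 f) := Sp.Q_lim f

lemma norm_Lop (a : List K) : ‖Lop 𝕜 a‖ ≤ 1 := Sp.norm_Lop a

lemma Lop_Rop (a b : List K) (f : H 𝕜) : Lop 𝕜 a (Rop 𝕜 b f) = Rop 𝕜 b (Lop 𝕜 a f) :=
  Sp.Lop_Rop a b f

/-- the functions with finitely many values on cylinders -/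
noncomputable def mk (u : List K → 𝕜) (C : ℝ) (hC : ∀ t, ‖u t‖ ≤ C) (n : ℕ)
    (h : ∀ t, u t = if t.length ≤ n then u (trw n t) else 0) : H 𝕜 :=
  ⟨⟨u, by
    refine memℓp_infty ⟨C, ?_⟩
    rintro _ ⟨t, rfl⟩
    exact hC t⟩, by
    refine Sp.mem_Hs_of_level (n := n) ?_
    ext t
    rw [Sp.Q'_apply]
    exact (h t).symm⟩

/-- evaluation at a word -/
noncomputable def evl (t : List K) : H 𝕜 →L[𝕜] 𝕜 :=
  LinearMap.mkContinuous
    { toFun := fun f => ((show Sp.H 𝕜 from f) : Sp.L 𝕜) t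
      map_add' := fun _ _ => rfl
      map_smul' := fun _ _ => rfl } 1 (fun f => by
    rw [one_mul]
    exact lp.norm_apply_le_norm ENNReal.top_ne_zero ((show Sp.H 𝕜 from f) : Sp.L 𝕜) t)

lemma norm_evl_le (t : List K) (f : H 𝕜) : ‖evl t f‖ ≤ ‖f‖ :=
  lp.norm_apply_le_norm ENNReal.top_ne_zero ((show Sp.H 𝕜 from f) : Sp.L 𝕜) t

lemma norm_H_le {f : H 𝕜} {C : ℝ} (hC : 0 ≤ C) (h : ∀ t, ‖evl t f‖ ≤ C) : ‖f‖ ≤ C :=
  lp.norm_le_of_forall_le hC h

lemma ext_evl {f g : H 𝕜} (h : ∀ t, evl t f = evl t g) : f = g := Sp.ext_H h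

lemma evl_mk (u : List K → 𝕜) (C : ℝ) (hC : ∀ t, ‖u t‖ ≤ C) (n : ℕ)
    (h : ∀ t, u t = if t.length ≤ n then u (trw n t) else 0) (t : List K) :
    evl t (mk u C hC n h) = u t := rfl

lemma evl_Q (n : ℕ) (f : H 𝕜) (t : List K) :
    evl t (Q 𝕜 n f) = if t.length ≤ n then evl (trw n t) f else 0 := Sp.Q_apply n f t

lemma evl_Lop (a t : List K) (f : H 𝕜) : evl t (Lop 𝕜 a f) = evl (a ++ t) f := Sp.Lop_apply a f t

lemma evl_Rop (a t : List K) (f : H 𝕜) : evl t (Rop 𝕜 a f) = evl (t ++ a) f := Sp.Rop_apply a f t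

lemma tendsto_evl_trw (f : H 𝕜) (t : List K) :
    Tendsto (fun n => evl (trw n t) f) atTop (𝓝 (evl t f)) := by
  have h1 : Tendsto (fun n => evl t (Q 𝕜 n f)) atTop (𝓝 (evl t f)) :=
    ((evl t).continuous.tendsto _).comp (Q_lim f)
  refine h1.congr' ?_
  filter_upwards [eventually_ge_atTop t.length] with n hn
  rw [evl_Q, if_pos hn]

lemma Lop_trw_Q {N n : ℕ} (h : N ≤ n) (t : List K) (f : H 𝕜) :
    Lop 𝕜 (trw n t) (Q 𝕜 N f) = Lop 𝕜 t (Q 𝕜 N f) := by
  refine ext_evl fun r => ?_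
  rw [evl_Lop, evl_Lop, evl_Q, evl_Q]
  simp only [List.length_append, length_trw, trw_append, trw_trw, min_eq_left h]

lemma norm_Lop_apply (a : List K) (f : H 𝕜) : ‖Lop 𝕜 a f‖ ≤ ‖f‖ := by
  refine ((Lop 𝕜 a).le_opNorm f).trans ?_
  have := norm_Lop (𝕜 := 𝕜) a
  have := norm_nonneg f
  nlinarith

lemma tendsto_Lop_trw (f : H 𝕜) (t : List K) :
    Tendsto (fun n => Lop 𝕜 (trw n t) f) atTop (𝓝 (Lop 𝕜 t f)) := by
  rw [Metric.tendsto_atTop]
  intro ε hε
  obtain ⟨N, hN⟩ := (Metric.tendsto_atTop.1 (Q_lim f)) (ε / 2) (by positivity)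
  refine ⟨N, fun n hn => ?_⟩
  have h1 := hN N le_rfl
  rw [dist_eq_norm] at h1 ⊢
  have h2 : Lop 𝕜 (trw n t) f - Lop 𝕜 t f = Lop 𝕜 t (Q 𝕜 N f - f) -
      Lop 𝕜 (trw n t) (Q 𝕜 N f - f) := by
    rw [map_sub, map_sub, Lop_trw_Q hn]
    abel
  rw [h2]
  have h3 := norm_Lop_apply t (Q 𝕜 N f - f)
  have h4 := norm_Lop_apply (trw n t) (Q 𝕜 N f - f)
  have h5 := norm_sub_le (Lop 𝕜 t (Q 𝕜 N f - f)) (Lop 𝕜 (trw n t) (Q 𝕜 N f - f))
  linarith

variable (𝕜) in
/-- the commutant of the left translations -/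
noncomputable def AA : Subalgebra 𝕜 (H 𝕜 →L[𝕜] H 𝕜) :=
  Subalgebra.centralizer 𝕜 (Set.range fun w : List (List Bool) => Lop 𝕜 (w.map ext))

lemma mem_AA {g : H 𝕜 →L[𝕜] H 𝕜} :
    g ∈ AA 𝕜 ↔ ∀ w : List (List Bool), Lop 𝕜 (w.map ext) * g = g * Lop 𝕜 (w.map ext) := by
  unfold AA
  rw [Subalgebra.mem_centralizer_iff]
  simp only [Set.forall_mem_range]

instance : CompleteSpace (AA 𝕜) := by
  have h : IsClosed ((AA 𝕜 : Subalgebra 𝕜 (H 𝕜 →L[𝕜] H 𝕜)) : Set (H 𝕜 →L[𝕜] H 𝕜)) :=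
    Set.isClosed_centralizer _
  exact h.completeSpace_coe

/-- the values of `g f` -/
lemma key {g : H 𝕜 →L[𝕜] H 𝕜} (hg : g ∈ AA 𝕜) (f : H 𝕜) (t : List K) :
    evl t (g f) = evl [] (g (Lop 𝕜 t f)) := by
  have h1 := tendsto_evl_trw (g f) t
  have h2 : Tendsto (fun n => evl [] (g (Lop 𝕜 (trw n t) f))) atTop
      (𝓝 (evl [] (g (Lop 𝕜 t f)))) :=
    ((evl []).continuous.tendsto _).comp ((g.continuous.tendsto _).comp (tendsto_Lop_trw f t))
  refine tendsto_nhds_unique h1 (h2.congr fun n => ?_)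
  obtain ⟨w, hw⟩ := exists_ext n t
  have h3 := mem_AA.1 hg w
  rw [hw] at h3
  have h4 := congrArg (fun T : H 𝕜 →L[𝕜] H 𝕜 => evl [] (T f)) h3
  have h5 : evl [] (Lop 𝕜 (trw n t) (g f)) = evl [] (g (Lop 𝕜 (trw n t) f)) := h4
  rw [← h5, evl_Lop, List.append_nil]

/-- the elements of the commutant preserve the levels -/
lemma Q_g_Q {g : H 𝕜 →L[𝕜] H 𝕜} (hg : g ∈ AA 𝕜) (n : ℕ) (f : H 𝕜) :
    Q 𝕜 n (g (Q 𝕜 n f)) = g (Q 𝕜 n f) := by
  refine ext_evl fun t => ?_
  rw [evl_Q]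
  split_ifs with ht
  · rw [key hg (Q 𝕜 n f) (trw n t), key hg (Q 𝕜 n f) t, Lop_trw_Q le_rfl]
  · have h1 : Lop 𝕜 t (Q 𝕜 n f) = 0 := by
      refine ext_evl fun r => ?_
      rw [evl_Lop, evl_Q, if_neg (by simp only [List.length_append]; omega), map_zero]
    rw [key hg, h1, map_zero, map_zero]

open Classical in
variable (𝕜) in
/-- the indicator functions of cylinders -/
noncomputable def cyl (n : ℕ) (s : List K) : H 𝕜 :=
  mk (fun t => if trw n t = trw n s then 1 else 0) 1 (fun t => by split_ifs <;> simp)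
    (max n s.length) (fun t => by
    show (if trw n t = trw n s then (1 : 𝕜) else 0) = (if t.length ≤ max n s.length then
      (if trw n (trw (max n s.length) t) = trw n s then (1 : 𝕜) else 0) else 0)
    rw [trw_trw, min_eq_left (le_max_left _ _)]
    by_cases h1 : t.length ≤ max n s.length
    · rw [if_pos h1]
    · rw [if_neg h1]
      refine if_neg fun h2 => h1 ?_
      have := congrArg List.length h2
      rw [length_trw, length_trw] at this
      exact this.le.trans (le_max_right _ _))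

open Classical in
lemma evl_cyl (n : ℕ) (s t : List K) :
    evl t (cyl 𝕜 n s) = if trw n t = trw n s then 1 else 0 := rfl

lemma exists_phase (z : 𝕜) : ∃ c : 𝕜, ‖c‖ ≤ 1 ∧ c * z = (‖z‖ : 𝕜) := by
  by_cases hz : z = 0
  · exact ⟨0, by simp, by simp [hz]⟩
  · refine ⟨(‖z‖ : 𝕜) / z, ?_, by field_simp⟩
    rw [norm_div, norm_algebraMap', norm_norm, div_self (norm_ne_zero_iff.2 hz)]

/-- disjoint cylinders -/
lemma sum_norm_le (g : H 𝕜 →L[𝕜] H 𝕜) (F : Finset (List K)) (n : ℕ)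
    (hF : Set.InjOn (trw n) (F : Set (List K))) : ∑ s ∈ F, ‖evl [] (g (cyl 𝕜 n s))‖ ≤ ‖g‖ := by
  classical
  choose c hc1 hc2 using fun s => exists_phase (evl [] (g (cyl 𝕜 n s)))
  set y : H 𝕜 := ∑ s ∈ F, c s • cyl 𝕜 n s with hy
  have hy1 : ‖y‖ ≤ 1 := by
    refine norm_H_le zero_le_one fun t => ?_
    rw [hy, map_sum]
    simp only [map_smul, evl_cyl, smul_eq_mul, mul_ite, mul_one, mul_zero]
    by_cases hex : ∃ s ∈ F, trw n t = trw n s
    · obtain ⟨s, hs, hts⟩ := hex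
      rw [Finset.sum_eq_single_of_mem s hs, if_pos hts]
      · exact hc1 s
      · intro b hb hbs
        refine if_neg fun h => hbs (hF hb hs ?_)
        rw [← h, hts]
    · push Not at hex
      rw [Finset.sum_eq_zero fun s hs => if_neg (hex s hs), norm_zero]
      exact zero_le_one
  have h1 : evl [] (g y) = ((∑ s ∈ F, ‖evl [] (g (cyl 𝕜 n s))‖ : ℝ) : 𝕜) := by
    rw [hy, map_sum, map_sum]
    push_cast
    refine Finset.sum_congr rfl fun s _ => ?_
    rw [map_smul, map_smul, smul_eq_mul, hc2]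
  have h2 : ‖evl [] (g y)‖ ≤ ‖g‖ := by
    refine (norm_evl_le _ _).trans ((g.le_opNorm y).trans ?_)
    have := norm_nonneg g
    nlinarith
  rw [h1, RCLike.norm_ofReal, abs_of_nonneg (Finset.sum_nonneg fun s _ => norm_nonneg _)] at h2
  exact h2

lemma norm_cyl_le (g : H 𝕜 →L[𝕜] H 𝕜) (n : ℕ) (s : List K) :
    ‖evl [] (g (cyl 𝕜 n s))‖ ≤ ‖g‖ := by
  have := sum_norm_le g {s} n (by simp)
  simpa using this

/-- a free ultrafilter -/
noncomputable def U : Ultrafilter ℕ := hyperfilter ℕ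

lemma U_le : (U : Filter ℕ) ≤ atTop := by
  unfold U
  rw [← Nat.cofinite_eq_atTop]
  exact hyperfilter_le_cofinite

lemma exists_mass (g : H 𝕜 →L[𝕜] H 𝕜) (s : List K) :
    ∃ c : 𝕜, Tendsto (fun n => evl [] (g (cyl 𝕜 n s))) U (𝓝 c) := by
  have h1 : IsCompact (Metric.closedBall (0 : 𝕜) ‖g‖) := isCompact_closedBall _ _
  obtain ⟨c, -, hc⟩ := h1.ultrafilter_le_nhds (U.map fun n => evl [] (g (cyl 𝕜 n s))) (by
    rw [Filter.le_principal_iff]
    refine Filter.mem_map.2 (Filter.Eventually.of_forall fun n => ?_)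
    show evl [] (g (cyl 𝕜 n s)) ∈ Metric.closedBall (0 : 𝕜) ‖g‖
    rw [mem_closedBall_zero_iff]
    exact norm_cyl_le g n s)
  exact ⟨c, hc⟩

/-- the point masses -/
noncomputable def mass (g : H 𝕜 →L[𝕜] H 𝕜) (s : List K) : 𝕜 := (exists_mass g s).choose

lemma tendsto_mass (g : H 𝕜 →L[𝕜] H 𝕜) (s : List K) :
    Tendsto (fun n => evl [] (g (cyl 𝕜 n s))) U (𝓝 (mass g s)) := (exists_mass g s).choose_spec

lemma mass_eq {g : H 𝕜 →L[𝕜] H 𝕜} {s : List K} {c : 𝕜}
    (h : Tendsto (fun n => evl [] (g (cyl 𝕜 n s))) U (𝓝 c)) : mass g s = c :=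
  tendsto_nhds_unique (tendsto_mass g s) h

lemma mass_add (g h : H 𝕜 →L[𝕜] H 𝕜) (s : List K) : mass (g + h) s = mass g s + mass h s := by
  refine mass_eq ?_
  have := (tendsto_mass g s).add (tendsto_mass h s)
  simpa only [add_apply, map_add] using this

lemma mass_smul (c : 𝕜) (g : H 𝕜 →L[𝕜] H 𝕜) (s : List K) : mass (c • g) s = c * mass g s := by
  refine mass_eq ?_
  have := (tendsto_mass g s).const_mul c
  simpa only [smul_apply, map_smul, smul_eq_mul] using this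

lemma eventually_injOn (F : Finset (List K)) :
    ∀ᶠ n in (atTop : Filter ℕ), Set.InjOn (trw n) (F : Set (List K)) := by
  classical
  have h1 : ∀ p ∈ F ×ˢ F, ∀ᶠ n in (atTop : Filter ℕ), trw n p.1 = trw n p.2 → p.1 = p.2 := by
    rintro ⟨s, t⟩ -
    by_cases hst : s = t
    · exact Eventually.of_forall fun _ _ => hst
    · obtain ⟨N, hN⟩ := exists_trw_ne hst
      filter_upwards [eventually_ge_atTop N] with n hn h
      exact absurd h (hN n hn)
  have h2 := (Filter.eventually_all_finset (F ×ˢ F)).2 h1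
  filter_upwards [h2] with n hn s hs t ht hst
  exact hn (s, t) (Finset.mem_product.2 ⟨hs, ht⟩) hst

lemma sum_mass_le (g : H 𝕜 →L[𝕜] H 𝕜) (F : Finset (List K)) : ∑ s ∈ F, ‖mass g s‖ ≤ ‖g‖ := by
  have h1 : Tendsto (fun n => ∑ s ∈ F, ‖evl [] (g (cyl 𝕜 n s))‖) U (𝓝 (∑ s ∈ F, ‖mass g s‖)) :=
    tendsto_finsetSum _ fun s _ => (tendsto_mass g s).norm
  exact le_of_tendsto h1 ((eventually_injOn F).filter_mono U_le |>.mono fun n hn =>
    sum_norm_le g F n hn)

lemma summable_mass (g : H 𝕜 →L[𝕜] H 𝕜) : Summable fun s => ‖mass g s‖ :=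
  summable_of_sum_le (fun _ => norm_nonneg _) (sum_mass_le g)

lemma tsum_mass_le (g : H 𝕜 →L[𝕜] H 𝕜) : ∑' s, ‖mass g s‖ ≤ ‖g‖ :=
  Real.tsum_le_of_sum_le (fun _ => norm_nonneg _) (sum_mass_le g)

lemma append_eq_iff (n : ℕ) (t r s : List K) : trw n (t ++ r) = trw n s ↔
    trw n t = trw n (s.take t.length) ∧ trw n r = trw n (s.drop t.length) := by
  rw [trw_append, trw_take, trw_drop]
  constructor
  · intro h
    rw [← h]
    have h1 : t.length = (trw n t).length := (length_trw n t).symm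
    rw [h1]
    simp
  · rintro ⟨h1, h2⟩
    rw [h1, h2, List.take_append_drop]

/-- the image of a cylinder function -/
lemma g_cyl {g : H 𝕜 →L[𝕜] H 𝕜} (hg : g ∈ AA 𝕜) (n : ℕ) (s : List K) :
    g (cyl 𝕜 n s) = ∑ i ∈ Finset.range (s.length + 1),
      evl [] (g (cyl 𝕜 n (s.drop i))) • cyl 𝕜 n (s.take i) := by
  classical
  refine ext_evl fun t => ?_
  rw [key hg, map_sum]
  simp only [map_smul, evl_cyl, smul_eq_mul, mul_ite, mul_one, mul_zero]
  by_cases h : trw n t = trw n (s.take t.length)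
  · have hl : t.length ≤ s.length := by
      have := congrArg List.length h
      rw [length_trw, length_trw, List.length_take] at this
      exact min_eq_left_iff.1 this.symm
    have h1 : Lop 𝕜 t (cyl 𝕜 n s) = cyl 𝕜 n (s.drop t.length) := by
      refine ext_evl fun r => ?_
      rw [evl_Lop, evl_cyl, evl_cyl]
      refine if_congr ?_ rfl rfl
      rw [append_eq_iff]
      exact ⟨fun h => h.2, fun h' => ⟨h, h'⟩⟩
    rw [h1, Finset.sum_eq_single_of_mem t.length (Finset.mem_range.2 (by omega)), if_pos h]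
    intro b hb hbt
    refine if_neg fun h' => hbt ?_
    have := congrArg List.length h'
    rw [length_trw, length_trw, List.length_take] at this
    have := Finset.mem_range.1 hb
    omega
  · have h1 : Lop 𝕜 t (cyl 𝕜 n s) = 0 := by
      refine ext_evl fun r => ?_
      rw [evl_Lop, evl_cyl, map_zero]
      refine if_neg fun h' => h ?_
      rw [append_eq_iff] at h'
      exact h'.1
    rw [h1, map_zero, map_zero]
    refine (Finset.sum_eq_zero fun i hi => if_neg fun h' => h ?_).symm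
    have h2 := congrArg List.length h'
    rw [length_trw, length_trw, List.length_take] at h2
    have h3 := Finset.mem_range.1 hi
    have h4 : i = t.length := by omega
    rw [← h4]
    exact h'

/-- **multiplicativity of the point masses** -/
lemma mass_mul {g h : H 𝕜 →L[𝕜] H 𝕜} (hh : h ∈ AA 𝕜) (s : List K) :
    mass (g * h) s = ∑ i ∈ Finset.range (s.length + 1), mass g (s.take i) * mass h (s.drop i) := by
  refine mass_eq ?_
  have h1 : Tendsto (fun n => ∑ i ∈ Finset.range (s.length + 1),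
      evl [] (g (cyl 𝕜 n (s.take i))) * evl [] (h (cyl 𝕜 n (s.drop i)))) U
      (𝓝 (∑ i ∈ Finset.range (s.length + 1), mass g (s.take i) * mass h (s.drop i))) :=
    tendsto_finsetSum _ fun i _ => (tendsto_mass g _).mul (tendsto_mass h _)
  refine h1.congr fun n => ?_
  show _ = evl [] (g (h (cyl 𝕜 n s)))
  rw [g_cyl hh, map_sum, map_sum]
  refine Finset.sum_congr rfl fun i _ => ?_
  rw [map_smul, map_smul, smul_eq_mul, mul_comm]

open Classical in
lemma mass_Rop (a s : List K) : mass (Rop 𝕜 a) s = if s = a then 1 else 0 := by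
  refine mass_eq ?_
  have h1 : ∀ n, evl [] (Rop 𝕜 a (cyl 𝕜 n s)) = if trw n a = trw n s then 1 else 0 := by
    intro n
    rw [evl_Rop, List.nil_append, evl_cyl]
  simp only [h1]
  by_cases hs : s = a
  · rw [if_pos hs, hs]
    simp only [if_true]
    exact tendsto_const_nhds
  · rw [if_neg hs]
    obtain ⟨N, hN⟩ := exists_trw_ne hs
    refine (tendsto_const_nhds.congr' ?_ : Tendsto _ atTop (𝓝 (0 : 𝕜))).mono_left U_le
    filter_upwards [eventually_ge_atTop N] with n hn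
    rw [if_neg fun h => hN n hn h.symm]

lemma Rop_nil : (Rop 𝕜 [] : H 𝕜 →L[𝕜] H 𝕜) = 1 := by
  refine ContinuousLinearMap.ext fun f => ext_evl fun t => ?_
  rw [evl_Rop, List.append_nil]
  rfl

lemma Rop_mem (a : List K) : Rop 𝕜 a ∈ AA 𝕜 := by
  rw [mem_AA]
  intro w
  exact ContinuousLinearMap.ext fun f => Lop_Rop _ _ f

end Pool.Agent.L5helper82.UQ
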