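import Pool.Agent.L5helper82.UQ.Alg

/-!
A separable Banach space whose algebra of operators is mapped onto every Banach algebra with at most
continuum many elements.
-/

set_option autoImplicit false

namespace Pool.Agent.L5helper82.UQ

open Filter Topology Pool.Agent.R184CA
open scoped ENNReal

variable {𝕜 : Type} [RCLike 𝕜]

/-- splitting words -/
def splitEquiv : (List K × List K) ≃ (Σ s : List K, Fin (s.length + 1)) where
  toFun p := ⟨p.1 ++ p.2, ⟨p.1.length, by simp only [List.length_append]; omega⟩⟩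
  invFun q := (q.1.take q.2, q.1.drop q.2)
  left_inv := by
    rintro ⟨a, b⟩
    simp
  right_inv := by
    rintro ⟨s, i, hi⟩
    have h1 : s.take i ++ s.drop i = s := List.take_append_drop i s
    have h2 : (s.take i).length = i := by rw [List.length_take]; omega
    refine Sigma.ext h1 ?_
    refine (Fin.heq_ext_iff ?_).2 h2
    show (s.take i ++ s.drop i).length + 1 = s.length + 1
    rw [h1]

lemma tsum_split {B : Type} [NormedRing B] [CompleteSpace B] (F : List K × List K → B)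
    (hF : Summable F) :
    ∑' p, F p = ∑' s : List K, ∑ i ∈ Finset.range (s.length + 1), F (s.take i, s.drop i) := by
  have h1 : Summable fun q : (Σ s : List K, Fin (s.length + 1)) => F (splitEquiv.symm q) :=
    splitEquiv.symm.summable_iff.2 hF
  rw [← splitEquiv.symm.tsum_eq F, h1.tsum_sigma]
  refine tsum_congr fun s => ?_
  rw [tsum_fintype]
  exact Fin.sum_univ_eq_sum_range (fun i => F (s.take i, s.drop i)) (s.length + 1)

lemma tsum_mul_split {B : Type} [NormedRing B] [CompleteSpace B] (F G : List K → B)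
    (hF : Summable fun s => ‖F s‖) (hG : Summable fun s => ‖G s‖) :
    (∑' s, F s) * ∑' s, G s =
      ∑' s : List K, ∑ i ∈ Finset.range (s.length + 1), F (s.take i) * G (s.drop i) := by
  rw [tsum_mul_tsum_of_summable_norm hF hG]
  exact tsum_split (fun p => F p.1 * G p.2) (summable_mul_of_summable_norm hF hG)

section quot

variable {B : Type} [NormedRing B] [NormedAlgebra 𝕜 B] [CompleteSpace B] (ρ : K → B)
  (hρ : ∀ k, ‖ρ k‖ ≤ 1)

/-- the value of a word -/
def val (s : List K) : B := (s.map ρ).prod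

lemma val_append (s t : List K) : val ρ (s ++ t) = val ρ s * val ρ t := by
  unfold val; rw [List.map_append, List.prod_append]

include hρ in
lemma norm_val (s : List K) : ‖val ρ s‖ ≤ max 1 ‖(1 : B)‖ := by
  induction s with
  | nil => exact le_max_right _ _
  | cons k s ih =>
    have h1 : val ρ (k :: s) = ρ k * val ρ s := by unfold val; rw [List.map_cons, List.prod_cons]
    rw [h1]
    refine (norm_mul_le _ _).trans ?_
    have := hρ k
    have := norm_nonneg (val ρ s)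
    nlinarith

include hρ in
lemma summable_psi (g : H 𝕜 →L[𝕜] H 𝕜) : Summable fun s => ‖mass g s • val ρ s‖ := by
  refine Summable.of_nonneg_of_le (fun _ => norm_nonneg _) (fun s => ?_)
    ((summable_mass g).mul_right (max 1 ‖(1 : B)‖))
  rw [norm_smul]
  exact mul_le_mul_of_nonneg_left (norm_val ρ hρ s) (norm_nonneg _)

/-- the homomorphism, as a function -/
noncomputable def psi0 (g : H 𝕜 →L[𝕜] H 𝕜) : B := ∑' s, mass g s • val ρ s

include hρ in
lemma psi0_add (g h : H 𝕜 →L[𝕜] H 𝕜) : psi0 ρ (g + h) = psi0 ρ g + psi0 ρ h := by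
  unfold psi0
  rw [← (summable_psi ρ hρ g).of_norm.tsum_add (summable_psi ρ hρ h).of_norm]
  refine tsum_congr fun s => ?_
  rw [mass_add, add_smul]

lemma psi0_smul (c : 𝕜) (g : H 𝕜 →L[𝕜] H 𝕜) : psi0 ρ (c • g) = c • psi0 ρ g := by
  unfold psi0
  rw [← tsum_const_smul'' c]
  refine tsum_congr fun s => ?_
  rw [mass_smul, mul_smul]

include hρ in
lemma norm_psi0 (g : H 𝕜 →L[𝕜] H 𝕜) : ‖psi0 ρ g‖ ≤ max 1 ‖(1 : B)‖ * ‖g‖ := by
  unfold psi0
  refine (norm_tsum_le_tsum_norm (summable_psi ρ hρ g)).trans ?_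
  have h1 : ∑' s, ‖mass g s • val ρ s‖ ≤ ∑' s, ‖mass g s‖ * max 1 ‖(1 : B)‖ := by
    refine (summable_psi ρ hρ g).tsum_le_tsum (fun s => ?_)
      ((summable_mass g).mul_right (max 1 ‖(1 : B)‖))
    rw [norm_smul]
    exact mul_le_mul_of_nonneg_left (norm_val ρ hρ s) (norm_nonneg _)
  rw [tsum_mul_right] at h1
  refine h1.trans ?_
  rw [mul_comm]
  exact mul_le_mul_of_nonneg_left (tsum_mass_le g) (le_max_of_le_left zero_le_one)

lemma psi0_Rop (a : List K) : psi0 ρ (Rop 𝕜 a) = val ρ a := by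
  classical
  unfold psi0
  rw [tsum_eq_single a]
  · rw [mass_Rop, if_pos rfl, one_smul]
  · intro s hs
    rw [mass_Rop, if_neg hs, zero_smul]

lemma smul_mul_smul' (c d : 𝕜) (x y : B) : (c • x) * (d • y) = (c * d) • (x * y) := by
  rw [smul_mul_assoc, mul_smul_comm, smul_smul]

lemma psi0_mul_aux (u v w : List K → 𝕜) (hu : Summable fun s => ‖u s • val ρ s‖)
    (hv : Summable fun s => ‖v s • val ρ s‖)
    (hw : ∀ s, w s = ∑ i ∈ Finset.range (s.length + 1), u (s.take i) * v (s.drop i)) :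
    ∑' s, w s • val ρ s = (∑' s, u s • val ρ s) * ∑' s, v s • val ρ s := by
  have h1 := tsum_mul_split (fun s => u s • val ρ s) (fun s => v s • val ρ s) hu hv
  refine Eq.trans (tsum_congr fun s => ?_) h1.symm
  rw [hw s, Finset.sum_smul]
  refine Finset.sum_congr rfl fun i _ => ?_
  show (u (s.take i) * v (s.drop i)) • val ρ s =
    (u (s.take i) • val ρ (s.take i)) * (v (s.drop i) • val ρ (s.drop i))
  rw [smul_mul_smul', ← val_append, List.take_append_drop]

include hρ in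
lemma psi0_mul {g h : H 𝕜 →L[𝕜] H 𝕜} (hh : h ∈ AA 𝕜) : psi0 ρ (g * h) = psi0 ρ g * psi0 ρ h :=
  psi0_mul_aux ρ (mass g) (mass h) (mass (g * h)) (summable_psi ρ hρ g) (summable_psi ρ hρ h)
    (fun s => mass_mul hh s)

/-- the homomorphism -/
noncomputable def psi : AA 𝕜 →ₐ[𝕜] B :=
  AlgHom.ofLinearMap
    { toFun := fun g => psi0 ρ (g : H 𝕜 →L[𝕜] H 𝕜)
      map_add' := fun g h => psi0_add ρ hρ _ _
      map_smul' := fun c g => psi0_smul ρ c _ }
    (by
      show psi0 ρ (1 : H 𝕜 →L[𝕜] H 𝕜) = 1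
      rw [← Rop_nil, psi0_Rop]
      rfl)
    (fun g h => psi0_mul ρ hρ h.2)

lemma psi_apply (g : AA 𝕜) : psi ρ hρ g = psi0 ρ (g : H 𝕜 →L[𝕜] H 𝕜) := rfl

lemma psi_continuous : Continuous (psi (𝕜 := 𝕜) ρ hρ) :=
  AddMonoidHomClass.continuous_of_bound (psi (𝕜 := 𝕜) ρ hρ) (max 1 ‖(1 : B)‖)
    fun _ => norm_psi0 ρ hρ _

lemma psi_surjective (h : ∀ b : B, ‖b‖ ≤ 1 → ∃ k, ρ k = b) :
    Function.Surjective (psi (𝕜 := 𝕜) ρ hρ) := by
  intro b
  by_cases hb : b = 0
  · exact ⟨0, by rw [map_zero, hb]⟩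
  have hb' : ‖b‖ ≠ 0 := norm_ne_zero_iff.2 hb
  obtain ⟨k, hk⟩ := h (((‖b‖ : ℝ) : 𝕜)⁻¹ • b) (by
    rw [norm_smul, norm_inv, RCLike.norm_ofReal, abs_norm, inv_mul_cancel₀ hb'])
  refine ⟨((‖b‖ : ℝ) : 𝕜) • ⟨Rop 𝕜 [k], Rop_mem [k]⟩, ?_⟩
  rw [map_smul, psi_apply]
  show ((‖b‖ : ℝ) : 𝕜) • psi0 ρ (Rop 𝕜 [k]) = b
  rw [psi0_Rop]
  have h1 : val ρ [k] = ρ k := by unfold val; simp
  rw [h1, hk, smul_smul, mul_inv_cancel₀ (by exact_mod_cast hb'), one_smul]

end quot

/-- the hypothesis on the symbols -/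
lemma mem_of_almost (s : H 𝕜 →L[𝕜] H 𝕜) (hs : ∀ δ > 0, ∀ N, ∃ n, N ≤ n ∧ ∀ w ∈ (S 𝕜).W n,
    ‖(s * w - w * s) * (S 𝕜).Q n‖ ≤ δ) : s ∈ AA 𝕜 := by
  rw [mem_AA]
  intro w
  set a := Lop 𝕜 (w.map ext) with ha
  refine ContinuousLinearMap.ext fun x => ?_
  have key : ∀ ε : ℝ, 0 < ε → ‖(s * a - a * s) x‖ ≤ ε := by
    intro ε hε
    have h1 : 0 < ε / (2 * (‖s * a - a * s‖ + 1)) := by positivity
    obtain ⟨N, hN⟩ := (Metric.tendsto_atTop.1 (Q_lim x)) _ h1
    obtain ⟨n, hn, h2⟩ := hs (ε / (2 * (‖x‖ + 1))) (by positivity) N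
    have h3 : ‖((s * a - a * s) * (S 𝕜).Q n) x‖ ≤ ε / 2 := by
      refine (ContinuousLinearMap.le_opNorm _ _).trans ?_
      have h4 := h2 a ⟨w, rfl⟩
      calc ‖(s * a - a * s) * (S 𝕜).Q n‖ * ‖x‖ ≤ (ε / (2 * (‖x‖ + 1))) * (‖x‖ + 1) := by
            gcongr
            linarith
        _ = ε / 2 := by field_simp
    have h5 : ‖(s * a - a * s) (x - Q 𝕜 n x)‖ ≤ ε / 2 := by
      refine (ContinuousLinearMap.le_opNorm _ _).trans ?_
      have h6 := hN n hn
      rw [dist_eq_norm, norm_sub_rev] at h6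
      calc ‖s * a - a * s‖ * ‖x - Q 𝕜 n x‖
          ≤ (‖s * a - a * s‖ + 1) * (ε / (2 * (‖s * a - a * s‖ + 1))) := by
            gcongr
            linarith
        _ = ε / 2 := by field_simp
    have h7 : (s * a - a * s) x = ((s * a - a * s) * (S 𝕜).Q n) x +
        (s * a - a * s) (x - Q 𝕜 n x) := by
      show (s * a - a * s) x = (s * a - a * s) (Q 𝕜 n x) + (s * a - a * s) (x - Q 𝕜 n x)
      rw [← map_add, add_sub_cancel]
    rw [h7]
    refine (norm_add_le _ _).trans ?_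
    linarith
  have h8 : (s * a - a * s) x = 0 := by
    rw [← norm_le_zero_iff]
    exact le_of_forall_pos_le_add fun ε hε => by rw [zero_add]; exact key ε hε
  have h9 : (s * a) x - (a * s) x = 0 := h8
  exact (sub_eq_zero.1 h9).symm

variable (𝕜) in
/-- the space -/
theorem exists_space : ∃ (X : Type) (_ : NormedAddCommGroup X) (_ : NormedSpace 𝕜 X)
    (_ : CompleteSpace X) (P : ℕ → (X →L[𝕜] X)) (φ : (X →L[𝕜] X) →ₐ[𝕜] AA 𝕜),
      (∀ n, FiniteDimensional 𝕜 (LinearMap.range (P n : X →ₗ[𝕜] X))) ∧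
      (∀ n, ‖P n‖ ≤ 2) ∧ (∀ m n, P m * P n = P (min m n)) ∧
      (∀ x, Tendsto (fun n => P n x) atTop (𝓝 x)) ∧
      Continuous φ ∧ Function.Surjective φ ∧ ∀ T, φ T = 0 ↔ IsCompactOperator T := by
  refine main (S 𝕜) (AA 𝕜).val 1 one_pos (fun a => by rw [one_mul]; exact le_rfl)
    (fun a => by rw [one_mul]; exact le_rfl) (fun s hs => ⟨⟨s, mem_of_almost s hs⟩, rfl⟩)
    Set.univ ?_ ?_
  · rw [Algebra.adjoin_univ]
    simp
  · intro g _
    refine ⟨0, fun n _ => ⟨ContinuousLinearMap.ext fun f => Q_g_Q g.2 n f, ?_⟩⟩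
    rintro _ ⟨w, rfl⟩
    exact (mem_AA.1 g.2 w).symm

end Pool.Agent.L5helper82.UQ
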