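import Mathlib

/-!
A non-separable Banach space with only continuum many bounded operators: the closed span of the
indicator functions of the (tails of the) branches of the binary tree, in the bounded functions on it.
-/

set_option autoImplicit false

namespace Pool.Agent.L5helper82.UQ.Small

open Filter Topology
open scoped ENNReal

/-- the points of the branch `σ` -/
def br (σ : ℕ → Bool) (n : ℕ) : List Bool := List.ofFn fun i : Fin n => σ i

@[simp] lemma length_br (σ : ℕ → Bool) (n : ℕ) : (br σ n).length = n := by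
  unfold br; simp

lemma br_mono {σ τ : ℕ → Bool} {m n : ℕ} (hmn : m ≤ n) (h : br σ n = br τ n) :
    br σ m = br τ m := by
  unfold br at h ⊢
  rw [List.ofFn_inj] at h ⊢
  funext i
  exact congrFun h ⟨i, i.2.trans_le hmn⟩

lemma exists_br_ne {σ τ : ℕ → Bool} (h : σ ≠ τ) : ∃ N, ∀ n, N ≤ n → br σ n ≠ br τ n := by
  by_contra hcon
  push Not at hcon
  refine h (funext fun k => ?_)
  obtain ⟨m, hm, h1⟩ := hcon (k + 1)
  have h2 := br_mono hm h1
  unfold br at h2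
  rw [List.ofFn_inj] at h2
  exact congrFun h2 ⟨k, Nat.lt_succ_self k⟩

variable (𝕜 : Type) [RCLike 𝕜]

/-- bounded functions on the tree -/
abbrev L : Type := lp (fun _ : List Bool => 𝕜) ⊤

open Classical in
/-- the indicator function of the tail of a branch -/
noncomputable def chi0 (σ : ℕ → Bool) (N : ℕ) : L 𝕜 :=
  ⟨fun w => if N ≤ w.length ∧ w = br σ w.length then 1 else 0, by
    refine memℓp_infty ⟨1, ?_⟩
    rintro _ ⟨t, rfl⟩
    show ‖(if N ≤ t.length ∧ t = br σ t.length then (1 : 𝕜) else 0)‖ ≤ 1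
    split_ifs <;> simp⟩

/-- the space -/
noncomputable def Ys : Submodule 𝕜 (L 𝕜) :=
  (Submodule.span 𝕜 (Set.range fun p : (ℕ → Bool) × ℕ => chi0 𝕜 p.1 p.2)).topologicalClosure

/-- the space -/
def Y : Type := Ys 𝕜

noncomputable instance : NormedAddCommGroup (Y 𝕜) := inferInstanceAs (NormedAddCommGroup (Ys 𝕜))

noncomputable instance : NormedSpace 𝕜 (Y 𝕜) := inferInstanceAs (NormedSpace 𝕜 (Ys 𝕜))

instance : CompleteSpace (Y 𝕜) :=
  (Submodule.isClosed_topologicalClosure _ : IsClosed (Ys 𝕜 : Set (L 𝕜))).completeSpace_coe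

/-- the indicator function of the tail of a branch -/
noncomputable def chi (σ : ℕ → Bool) (N : ℕ) : Y 𝕜 :=
  ⟨chi0 𝕜 σ N, Submodule.le_topologicalClosure _ (Submodule.subset_span ⟨(σ, N), rfl⟩)⟩

variable {𝕜}

/-- evaluation -/
noncomputable def ev (w : List Bool) : Y 𝕜 →L[𝕜] 𝕜 :=
  LinearMap.mkContinuous
    { toFun := fun f => ((show Ys 𝕜 from f) : L 𝕜) w
      map_add' := fun _ _ => rfl
      map_smul' := fun _ _ => rfl } 1 (fun f => by
    rw [one_mul]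
    exact lp.norm_apply_le_norm ENNReal.top_ne_zero ((show Ys 𝕜 from f) : L 𝕜) w)

lemma norm_ev_le (w : List Bool) (f : Y 𝕜) : ‖ev w f‖ ≤ ‖f‖ :=
  lp.norm_apply_le_norm ENNReal.top_ne_zero ((show Ys 𝕜 from f) : L 𝕜) w

lemma norm_Y_le {f : Y 𝕜} {C : ℝ} (hC : 0 ≤ C) (h : ∀ w, ‖ev w f‖ ≤ C) : ‖f‖ ≤ C :=
  lp.norm_le_of_forall_le hC h

lemma ext_ev {f g : Y 𝕜} (h : ∀ w, ev w f = ev w g) : f = g :=
  Subtype.ext (lp.ext (funext h))

open Classical in
lemma ev_chi (σ : ℕ → Bool) (N : ℕ) (w : List Bool) :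
    ev w (chi 𝕜 σ N) = if N ≤ w.length ∧ w = br σ w.length then 1 else 0 := rfl

/-- functionals which agree on the generators are equal -/
lemma ext_chi {φ ψ : Y 𝕜 →L[𝕜] 𝕜} (h : ∀ σ N, φ (chi 𝕜 σ N) = ψ (chi 𝕜 σ N)) : φ = ψ := by
  have key : ∀ f ∈ Submodule.span 𝕜 (Set.range fun p : (ℕ → Bool) × ℕ => chi0 𝕜 p.1 p.2),
      ∀ y : Y 𝕜, ((show Ys 𝕜 from y) : L 𝕜) = f → φ y = ψ y := by
    intro f hf
    induction hf using Submodule.span_induction with
    | mem f hf =>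
      obtain ⟨p, rfl⟩ := hf
      intro y hy
      have : y = chi 𝕜 p.1 p.2 := Subtype.ext hy
      rw [this]
      exact h p.1 p.2
    | zero =>
      intro y hy
      have h1 : y = 0 := Subtype.ext hy
      rw [h1, map_zero, map_zero]
    | add f g hf hg ihf ihg =>
      intro y hy
      let a : Y 𝕜 := ⟨f, Submodule.le_topologicalClosure _ hf⟩
      let b : Y 𝕜 := ⟨g, Submodule.le_topologicalClosure _ hg⟩
      have h1 : y = a + b := Subtype.ext hy
      rw [h1, map_add, map_add, ihf a rfl, ihg b rfl]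
    | smul c f hf ihf =>
      intro y hy
      let a : Y 𝕜 := ⟨f, Submodule.le_topologicalClosure _ hf⟩
      have h1 : y = c • a := Subtype.ext hy
      rw [h1, map_smul, map_smul, ihf a rfl]
  refine ContinuousLinearMap.ext fun f => ?_
  obtain ⟨f, hf⟩ := f
  have hf' : f ∈ closure ((Submodule.span 𝕜
      (Set.range fun p : (ℕ → Bool) × ℕ => chi0 𝕜 p.1 p.2) : Submodule 𝕜 (L 𝕜)) : Set (L 𝕜)) := hf
  obtain ⟨u, hu, hlim⟩ := mem_closure_iff_seq_limit.1 hf'
  let v : ℕ → Y 𝕜 := fun n => ⟨u n, Submodule.le_topologicalClosure _ (hu n)⟩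
  have hlim' : Tendsto v atTop (𝓝 (⟨f, hf⟩ : Y 𝕜)) := tendsto_subtype_rng.2 hlim
  refine tendsto_nhds_unique ((φ.continuous.tendsto _).comp hlim') ?_
  refine ((ψ.continuous.tendsto _).comp hlim').congr fun n => ?_
  exact (key (u n) (hu n) (v n) rfl).symm

/-- the branches on which `φ` does not tend to zero -/
def bad (φ : Y 𝕜 →L[𝕜] 𝕜) : Set (ℕ → Bool) :=
  {σ | ¬ Tendsto (fun N => φ (chi 𝕜 σ N)) atTop (𝓝 0)}

lemma exists_phase (z : 𝕜) : ∃ c : 𝕜, ‖c‖ ≤ 1 ∧ c * z = (‖z‖ : 𝕜) := by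
  by_cases hz : z = 0
  · exact ⟨0, by simp, by simp [hz]⟩
  · refine ⟨(‖z‖ : 𝕜) / z, ?_, by field_simp⟩
    rw [norm_div, norm_algebraMap', norm_norm, div_self (norm_ne_zero_iff.2 hz)]

lemma card_le (φ : Y 𝕜 →L[𝕜] 𝕜) {ε : ℝ} (F : Finset (ℕ → Bool))
    (hF : ∀ σ ∈ F, ∃ᶠ N in atTop, ε ≤ ‖φ (chi 𝕜 σ N)‖) : F.card * ε ≤ ‖φ‖ := by
  classical
  -- the level from which on the branches are disjoint
  obtain ⟨M, hM⟩ : ∃ M, ∀ σ ∈ F, ∀ τ ∈ F, σ ≠ τ → ∀ n, M ≤ n → br σ n ≠ br τ n := by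
    have h1 : ∀ p ∈ F ×ˢ F, ∀ᶠ n in (atTop : Filter ℕ), p.1 ≠ p.2 → br p.1 n ≠ br p.2 n := by
      rintro ⟨σ, τ⟩ -
      by_cases hst : σ = τ
      · exact Eventually.of_forall fun _ h => absurd hst h
      · obtain ⟨N, hN⟩ := exists_br_ne hst
        filter_upwards [eventually_ge_atTop N] with n hn _
        exact hN n hn
    obtain ⟨M, hM⟩ := eventually_atTop.1 ((Filter.eventually_all_finset (F ×ˢ F)).2 h1)
    exact ⟨M, fun σ hσ τ hτ hne n hn => hM n hn (σ, τ) (Finset.mem_product.2 ⟨hσ, hτ⟩) hne⟩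
  have h2 : ∀ σ, ∃ N, M ≤ N ∧ (σ ∈ F → ε ≤ ‖φ (chi 𝕜 σ N)‖) := by
    intro σ
    by_cases hσ : σ ∈ F
    · obtain ⟨N, hN, h3⟩ := (Filter.frequently_atTop.1 (hF σ hσ)) M
      exact ⟨N, hN, fun _ => h3⟩
    · exact ⟨M, le_rfl, fun h => absurd h hσ⟩
  choose N hN1 hN2 using h2
  choose c hc1 hc2 using fun σ => exists_phase (φ (chi 𝕜 σ (N σ)))
  set y : Y 𝕜 := ∑ σ ∈ F, c σ • chi 𝕜 σ (N σ) with hy
  have hy1 : ‖y‖ ≤ 1 := by
    refine norm_Y_le zero_le_one fun w => ?_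
    rw [hy, map_sum]
    simp only [map_smul, ev_chi, smul_eq_mul, mul_ite, mul_one, mul_zero]
    by_cases hex : ∃ σ ∈ F, N σ ≤ w.length ∧ w = br σ w.length
    · obtain ⟨σ, hσ, h3⟩ := hex
      rw [Finset.sum_eq_single_of_mem σ hσ, if_pos h3]
      · exact hc1 σ
      · intro τ hτ hne
        refine if_neg fun h4 => ?_
        exact hM τ hτ σ hσ hne w.length ((hN1 σ).trans h3.1) (h4.2.symm.trans h3.2)
    · push Not at hex
      rw [Finset.sum_eq_zero fun σ hσ => if_neg fun h => hex σ hσ h.1 h.2, norm_zero]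
      exact zero_le_one
  have h3 : φ y = ((∑ σ ∈ F, ‖φ (chi 𝕜 σ (N σ))‖ : ℝ) : 𝕜) := by
    rw [hy, map_sum]
    push_cast
    refine Finset.sum_congr rfl fun σ _ => ?_
    rw [map_smul, smul_eq_mul, hc2]
  have h4 : ‖φ y‖ ≤ ‖φ‖ := by
    refine (φ.le_opNorm y).trans ?_
    have := norm_nonneg φ
    nlinarith
  rw [h3, RCLike.norm_ofReal, abs_of_nonneg (Finset.sum_nonneg fun s _ => norm_nonneg _)] at h4
  refine le_trans ?_ h4
  rw [← nsmul_eq_mul]
  exact Finset.card_nsmul_le_sum _ _ _ fun σ hσ => hN2 σ hσ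

lemma countable_bad (φ : Y 𝕜 →L[𝕜] 𝕜) : (bad φ).Countable := by
  have h1 : bad φ ⊆ ⋃ k : ℕ, {σ | ∃ᶠ N in atTop, 1 / ((k : ℝ) + 1) ≤ ‖φ (chi 𝕜 σ N)‖} := by
    intro σ hσ
    by_contra hcon
    simp only [Set.mem_iUnion, not_exists] at hcon
    refine hσ ?_
    rw [tendsto_zero_iff_norm_tendsto_zero, Metric.tendsto_atTop]
    intro ε hε
    obtain ⟨k, hk⟩ := exists_nat_one_div_lt hε
    have h2 : ∀ᶠ N in atTop, ¬ (1 / ((k : ℝ) + 1) ≤ ‖φ (chi 𝕜 σ N)‖) :=
      Filter.not_frequently.1 (hcon k)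
    obtain ⟨M, hM⟩ := eventually_atTop.1 h2
    refine ⟨M, fun n hn => ?_⟩
    rw [Real.dist_eq, sub_zero, abs_norm]
    exact (not_le.1 (hM n hn)).trans hk
  refine (Set.countable_iUnion fun k => ?_).mono h1
  by_contra hcon
  have hinf : {σ | ∃ᶠ N in atTop, 1 / ((k : ℝ) + 1) ≤ ‖φ (chi 𝕜 σ N)‖}.Infinite :=
    fun hfin => hcon hfin.countable
  obtain ⟨m, hm⟩ := exists_nat_gt (‖φ‖ * ((k : ℝ) + 1))
  obtain ⟨F, hF, hcard⟩ := hinf.exists_subset_card_eq m
  have h3 := card_le φ F fun σ hσ => hF hσ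
  rw [hcard] at h3
  have hk : (0 : ℝ) < (k : ℝ) + 1 := by positivity
  rw [mul_one_div, div_le_iff₀ hk] at h3
  linarith

lemma chi_sub (σ : ℕ → Bool) (n : ℕ) (φ : Y 𝕜 →L[𝕜] 𝕜) :
    φ (chi 𝕜 σ 0) = ∑ i ∈ Finset.range n, φ (chi 𝕜 σ i - chi 𝕜 σ (i + 1)) + φ (chi 𝕜 σ n) := by
  induction n with
  | zero => simp
  | succ n ih => rw [Finset.sum_range_succ, add_assoc, ← map_add, sub_add_cancel, ← ih]

/-- the point mass of a node -/
lemma chi_node {σ τ : ℕ → Bool} {n : ℕ} (h : br σ n = br τ n) :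
    chi 𝕜 σ n - chi 𝕜 σ (n + 1) = chi 𝕜 τ n - chi 𝕜 τ (n + 1) := by
  classical
  have key : ∀ (σ : ℕ → Bool) (w : List Bool), ev w (chi 𝕜 σ n - chi 𝕜 σ (n + 1)) =
      if w = br σ n then 1 else 0 := by
    intro σ w
    rw [map_sub, ev_chi, ev_chi]
    by_cases hw : w = br σ n
    · have hl : w.length = n := by rw [hw, length_br]
      rw [if_pos hw, if_pos ⟨hl.ge, by rw [hl]; exact hw⟩, if_neg (by omega), sub_zero]
    · rw [if_neg hw]
      by_cases h1 : n + 1 ≤ w.length ∧ w = br σ w.length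
      · rw [if_pos h1, if_pos ⟨by omega, h1.2⟩, sub_self]
      · rw [if_neg h1, if_neg, sub_self]
        rintro ⟨h2, h3⟩
        by_cases h4 : n = w.length
        · rw [← h4] at h3
          exact hw h3
        · exact h1 ⟨by omega, h3⟩
  refine ext_ev fun w => ?_
  rw [key, key, h]

/-- the branch through a node -/
def thr (w : List Bool) : ℕ → Bool := fun k => w.getD k false

lemma br_thr (w : List Bool) : br (thr w) w.length = w := by
  unfold br thr
  refine List.ext_getElem (by simp) fun i h1 h2 => ?_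
  rw [List.getElem_ofFn]
  simp only [List.getD_eq_getElem?_getD, List.getElem?_eq_getElem h2, Option.getD_some]

lemma chi_thr (σ : ℕ → Bool) (n : ℕ) :
    chi 𝕜 σ n - chi 𝕜 σ (n + 1) =
      chi 𝕜 (thr (br σ n)) (br σ n).length - chi 𝕜 (thr (br σ n)) ((br σ n).length + 1) := by
  have h := br_thr (br σ n)
  rw [length_br] at h ⊢
  exact chi_node h.symm

lemma exists_enum (φ : Y 𝕜 →L[𝕜] 𝕜) : ∃ f : ℕ → (ℕ → Bool), bad φ ⊆ Set.range f := by
  obtain ⟨f, hf⟩ := ((countable_bad φ).insert (fun _ => false)).exists_eq_range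
    ⟨_, Set.mem_insert _ _⟩
  exact ⟨f, fun σ hσ => hf ▸ Set.mem_insert_of_mem _ hσ⟩

/-- the code of a functional -/
noncomputable def code (φ : Y 𝕜 →L[𝕜] 𝕜) : (List Bool → 𝕜) × (ℕ → (ℕ → Bool) × 𝕜) :=
  (fun w => φ (chi 𝕜 (thr w) w.length - chi 𝕜 (thr w) (w.length + 1)),
    fun n => ((exists_enum φ).choose n, φ (chi 𝕜 ((exists_enum φ).choose n) 0)))

lemma code_injective : Function.Injective (code (𝕜 := 𝕜)) := by
  intro φ ψ h
  have h1 : ∀ w, φ (chi 𝕜 (thr w) w.length - chi 𝕜 (thr w) (w.length + 1)) =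
      ψ (chi 𝕜 (thr w) w.length - chi 𝕜 (thr w) (w.length + 1)) :=
    fun w => congrFun (congrArg Prod.fst h) w
  have h2 : ∀ n, (exists_enum φ).choose n = (exists_enum ψ).choose n :=
    fun n => congrArg Prod.fst (congrFun (congrArg Prod.snd h) n)
  have h3 : ∀ n, φ (chi 𝕜 ((exists_enum φ).choose n) 0) = ψ (chi 𝕜 ((exists_enum ψ).choose n) 0) :=
    fun n => congrArg Prod.snd (congrFun (congrArg Prod.snd h) n)
  have h4 : ∀ σ i, φ (chi 𝕜 σ i - chi 𝕜 σ (i + 1)) = ψ (chi 𝕜 σ i - chi 𝕜 σ (i + 1)) := by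
    intro σ i
    rw [chi_thr]
    exact h1 _
  have h5 : ∀ σ, φ (chi 𝕜 σ 0) = ψ (chi 𝕜 σ 0) := by
    intro σ
    by_cases hσ : σ ∈ Set.range (exists_enum φ).choose
    · obtain ⟨n, rfl⟩ := hσ
      rw [h3 n, h2 n]
    · have hφ : Tendsto (fun N => φ (chi 𝕜 σ N)) atTop (𝓝 0) := by
        by_contra hcon
        exact hσ ((exists_enum φ).choose_spec hcon)
      have hψ : Tendsto (fun N => ψ (chi 𝕜 σ N)) atTop (𝓝 0) := by
        by_contra hcon
        obtain ⟨n, hn⟩ := (exists_enum ψ).choose_spec hcon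
        exact hσ ⟨n, by rw [h2 n, hn]⟩
      have e1 : Tendsto (fun n => ∑ i ∈ Finset.range n, φ (chi 𝕜 σ i - chi 𝕜 σ (i + 1))) atTop
          (𝓝 (φ (chi 𝕜 σ 0))) := by
        have : Tendsto (fun n => φ (chi 𝕜 σ 0) - φ (chi 𝕜 σ n)) atTop
            (𝓝 (φ (chi 𝕜 σ 0) - 0)) := tendsto_const_nhds.sub hφ
        rw [sub_zero] at this
        refine this.congr fun n => ?_
        rw [chi_sub σ n φ]
        abel
      have e2 : Tendsto (fun n => ∑ i ∈ Finset.range n, ψ (chi 𝕜 σ i - chi 𝕜 σ (i + 1))) atTop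
          (𝓝 (ψ (chi 𝕜 σ 0))) := by
        have : Tendsto (fun n => ψ (chi 𝕜 σ 0) - ψ (chi 𝕜 σ n)) atTop
            (𝓝 (ψ (chi 𝕜 σ 0) - 0)) := tendsto_const_nhds.sub hψ
        rw [sub_zero] at this
        refine this.congr fun n => ?_
        rw [chi_sub σ n ψ]
        abel
      refine tendsto_nhds_unique e1 (e2.congr fun n => ?_)
      exact Finset.sum_congr rfl fun i _ => (h4 σ i).symm
  refine ext_chi fun σ N => ?_
  have e1 := chi_sub σ N φ
  have e2 := chi_sub σ N ψ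
  have e3 : ∑ i ∈ Finset.range N, φ (chi 𝕜 σ i - chi 𝕜 σ (i + 1)) =
      ∑ i ∈ Finset.range N, ψ (chi 𝕜 σ i - chi 𝕜 σ (i + 1)) :=
    Finset.sum_congr rfl fun i _ => h4 σ i
  rw [h5 σ, e2, e3] at e1
  exact (add_left_cancel e1).symm

open Cardinal

lemma mk_field : #𝕜 ≤ 𝔠 := by
  have h1 : Function.Injective fun z : 𝕜 => (RCLike.re z, RCLike.im z) := by
    intro z w h
    exact RCLike.ext (congrArg Prod.fst h) (congrArg Prod.snd h)
  refine (mk_le_of_injective h1).trans ?_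
  rw [mk_prod, mk_real]
  simp

lemma mk_K : #(ℕ → Bool) = 𝔠 := by
  rw [← power_def, mk_bool, mk_nat, two_power_aleph0]

lemma mk_dual : #(Y 𝕜 →L[𝕜] 𝕜) ≤ 𝔠 := by
  refine (mk_le_of_injective code_injective).trans ?_
  rw [mk_prod, lift_id, lift_id, ← power_def, ← power_def, mk_prod, lift_id, lift_id, mk_K]
  have h1 : #𝕜 ^ #(List Bool) ≤ 𝔠 := by
    refine (power_le_power_right mk_field).trans ?_
    refine (power_le_power_left continuum_ne_zero (mk_le_aleph0 (α := List Bool))).trans ?_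
    rw [continuum_power_aleph0]
  have h2 : (𝔠 * #𝕜) ^ #ℕ ≤ 𝔠 := by
    rw [mk_nat]
    refine (power_le_power_right (mul_le_mul_right mk_field 𝔠)).trans ?_
    rw [continuum_mul_self, continuum_power_aleph0]
  exact (mul_le_mul' h1 h2).trans continuum_mul_self.le

lemma mk_operators : #(Y 𝕜 →L[𝕜] Y 𝕜) ≤ 𝔠 := by
  have h1 : Function.Injective fun (T : Y 𝕜 →L[𝕜] Y 𝕜) (w : List Bool) => (ev w).comp T := by
    intro T S h
    refine ContinuousLinearMap.ext fun y => ext_ev fun w => ?_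
    exact congrArg (fun φ : Y 𝕜 →L[𝕜] 𝕜 => φ y) (congrFun h w)
  refine (mk_le_of_injective h1).trans ?_
  rw [← power_def]
  refine (power_le_power_right mk_dual).trans ?_
  refine (power_le_power_left continuum_ne_zero (mk_le_aleph0 (α := List Bool))).trans ?_
  rw [continuum_power_aleph0]

lemma not_separable : ¬ TopologicalSpace.SeparableSpace (Y 𝕜) := by
  intro h
  have h1 : (Set.univ : Set (ℕ → Bool)).PairwiseDisjoint
      fun σ => Metric.ball (chi 𝕜 σ 0) (1 / 2) := by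
    intro σ _ τ _ hne
    refine Metric.ball_disjoint_ball ?_
    norm_num
    obtain ⟨N, hN⟩ := exists_br_ne hne
    rw [dist_eq_norm]
    refine le_trans ?_ (norm_ev_le (br σ N) _)
    rw [map_sub, ev_chi, ev_chi, length_br, if_pos ⟨Nat.zero_le _, rfl⟩,
      if_neg fun h => hN N le_rfl h.2, sub_zero, norm_one]
  have h2 := h1.countable_of_isOpen (fun σ _ => Metric.isOpen_ball)
    (fun σ _ => ⟨_, Metric.mem_ball_self (by norm_num)⟩)
  have h3 : #(ℕ → Bool) ≤ ℵ₀ := by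
    rw [← mk_univ]
    exact Cardinal.le_aleph0_iff_set_countable.2 h2
  rw [mk_K] at h3
  exact absurd h3 (not_le.2 aleph0_lt_continuum)

end Pool.Agent.L5helper82.UQ.Small
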