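import Pool.Agent.R184CA.Main

/-!
The continuous functions vanishing at infinity on the free monoid over the Cantor space `ℕ → Bool`, as a
closed subspace of the bounded functions on the set of all words.
-/

set_option autoImplicit false

namespace Pool.Agent.L5helper82.UQ

open Filter Topology Pool.Agent.R184CA
open scoped ENNReal

/-- the letters -/
abbrev K : Type := ℕ → Bool

/-- truncation of a letter -/
def tr (n : ℕ) (σ : K) : K := fun k => if k < n then σ k else false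

lemma tr_tr (m n : ℕ) (σ : K) : tr m (tr n σ) = tr (min m n) σ := by
  funext k
  unfold tr
  by_cases h1 : k < m <;> by_cases h2 : k < n <;> simp [h1, h2]

/-- truncation of the letters of a word -/
def trw (n : ℕ) (t : List K) : List K := t.map (tr n)

@[simp] lemma length_trw (n : ℕ) (t : List K) : (trw n t).length = t.length := by
  unfold trw; simp

@[simp] lemma trw_nil (n : ℕ) : trw n [] = [] := rfl

lemma trw_append (n : ℕ) (s t : List K) : trw n (s ++ t) = trw n s ++ trw n t := by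
  unfold trw; simp

lemma trw_trw (m n : ℕ) (t : List K) : trw m (trw n t) = trw (min m n) t := by
  unfold trw
  rw [List.map_map]
  congr 1
  funext σ
  exact tr_tr m n σ

lemma trw_take (n i : ℕ) (s : List K) : trw n (s.take i) = (trw n s).take i := by
  unfold trw; rw [List.map_take]

lemma trw_drop (n i : ℕ) (s : List K) : trw n (s.drop i) = (trw n s).drop i := by
  unfold trw; rw [List.map_drop]

/-- words with the same truncations are equal -/
lemma trw_inj {s t : List K} (h : ∀ n, trw n s = trw n t) : s = t := by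
  have hl : s.length = t.length := by
    have := congrArg List.length (h 0)
    simpa using this
  refine List.ext_getElem hl fun i h1 h2 => ?_
  funext k
  have h3 := h (k + 1)
  have h4 : (trw (k + 1) s)[i]? = (trw (k + 1) t)[i]? := by rw [h3]
  unfold trw at h4
  rw [List.getElem?_map, List.getElem?_map, List.getElem?_eq_getElem h1,
    List.getElem?_eq_getElem h2, Option.map_some, Option.map_some, Option.some_inj] at h4
  have h5 := congrFun h4 k
  unfold tr at h5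
  simpa using h5

lemma trw_mono {m n : ℕ} (hmn : m ≤ n) {s t : List K} (h : trw n s = trw n t) :
    trw m s = trw m t := by
  have := congrArg (trw m) h
  rwa [trw_trw, trw_trw, min_eq_left hmn] at this

lemma exists_trw_ne {s t : List K} (h : s ≠ t) : ∃ N, ∀ n, N ≤ n → trw n s ≠ trw n t := by
  by_contra hcon
  push Not at hcon
  refine h (trw_inj fun n => ?_)
  obtain ⟨m, hm, h1⟩ := hcon n
  exact trw_mono hm h1

/-- the letter given by a finite word -/
def ext (w : List Bool) : K := fun k => w.getD k false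

lemma exists_ext (n : ℕ) (t : List K) : ∃ w : List (List Bool), w.map ext = trw n t := by
  refine ⟨t.map fun σ => List.ofFn fun i : Fin n => σ i, ?_⟩
  unfold trw
  rw [List.map_map]
  congr 1
  funext σ k
  simp only [Function.comp, ext, tr]
  by_cases hk : k < n
  · rw [if_pos hk, List.getD_eq_getElem?_getD, List.getElem?_ofFn, dif_pos hk]
    rfl
  · rw [if_neg hk, List.getD_eq_getElem?_getD, List.getElem?_ofFn, dif_neg hk]
    rfl

namespace Sp

variable (𝕜 : Type) [RCLike 𝕜]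

/-- bounded functions on words -/
abbrev L : Type := lp (fun _ : List K => 𝕜) ⊤

variable {𝕜}


variable (𝕜) in
/-- composition with a map of words, followed by restriction to a set of words -/
noncomputable def pull (θ : List K → List K) (c : Set (List K)) : L 𝕜 →L[𝕜] L 𝕜 :=
  LinearMap.mkContinuous
    { toFun := fun f => ⟨fun t => c.indicator (fun t => f (θ t)) t, by
        refine memℓp_infty ⟨‖f‖, ?_⟩
        rintro _ ⟨t, rfl⟩
        by_cases ht : t ∈ c
        · simp only [Set.indicator_of_mem ht]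
          exact lp.norm_apply_le_norm ENNReal.top_ne_zero f _
        · simp only [Set.indicator_of_notMem ht, norm_zero]
          exact norm_nonneg f⟩
      map_add' := fun f g => by
        ext t
        show c.indicator (fun t => (f + g) (θ t)) t =
          c.indicator (fun t => f (θ t)) t + c.indicator (fun t => g (θ t)) t
        by_cases ht : t ∈ c
        · simp [Set.indicator_of_mem ht]
        · simp [Set.indicator_of_notMem ht]
      map_smul' := fun a f => by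
        ext t
        show c.indicator (fun t => (a • f) (θ t)) t = a • c.indicator (fun t => f (θ t)) t
        by_cases ht : t ∈ c
        · simp [Set.indicator_of_mem ht]
        · simp [Set.indicator_of_notMem ht] } 1 (fun f => by
    rw [one_mul]
    refine lp.norm_le_of_forall_le (norm_nonneg f) fun t => ?_
    show ‖c.indicator (fun t => f (θ t)) t‖ ≤ ‖f‖
    by_cases ht : t ∈ c
    · rw [Set.indicator_of_mem ht]
      exact lp.norm_apply_le_norm ENNReal.top_ne_zero f _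
    · rw [Set.indicator_of_notMem ht, norm_zero]
      exact norm_nonneg f)

lemma pull_apply (θ : List K → List K) (c : Set (List K)) (f : L 𝕜) (t : List K) :
    pull 𝕜 θ c f t = c.indicator (fun t => f (θ t)) t := rfl

lemma norm_pull_le (θ : List K → List K) (c : Set (List K)) : ‖(pull 𝕜 θ c : L 𝕜 →L[𝕜] L 𝕜)‖ ≤ 1 :=
  LinearMap.mkContinuous_norm_le _ zero_le_one _

lemma norm_pull_apply_le (θ : List K → List K) (c : Set (List K)) (f : L 𝕜) :
    ‖pull 𝕜 θ c f‖ ≤ ‖f‖ := by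
  refine ((pull 𝕜 θ c).le_opNorm f).trans ?_
  have := norm_pull_le (𝕜 := 𝕜) θ c
  have := norm_nonneg f
  nlinarith

variable (𝕜) in
/-- the projections -/
noncomputable def Q' (n : ℕ) : L 𝕜 →L[𝕜] L 𝕜 := pull 𝕜 (trw n) {t | t.length ≤ n}

lemma Q'_apply (n : ℕ) (f : L 𝕜) (t : List K) :
    Q' 𝕜 n f t = if t.length ≤ n then f (trw n t) else 0 := by
  unfold Q'
  rw [pull_apply]
  by_cases ht : t.length ≤ n
  · rw [Set.indicator_of_mem (by exact ht), if_pos ht]
  · rw [Set.indicator_of_notMem (by exact ht), if_neg ht]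

lemma Q'_Q' (m n : ℕ) (f : L 𝕜) : Q' 𝕜 m (Q' 𝕜 n f) = Q' 𝕜 (min m n) f := by
  ext t
  rw [Q'_apply, Q'_apply, Q'_apply, length_trw]
  by_cases h1 : t.length ≤ m
  · by_cases h2 : t.length ≤ n
    · rw [if_pos h1, if_pos h2, if_pos (le_min h1 h2), trw_trw, min_comm]
    · rw [if_pos h1, if_neg h2, if_neg (fun h => h2 (h.trans (min_le_right _ _)))]
  · rw [if_neg h1, if_neg (fun h => h1 (h.trans (min_le_left _ _)))]

variable (𝕜) in
/-- the functions vanishing at infinity -/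
noncomputable def Hs : Submodule 𝕜 (L 𝕜) where
  carrier := {f | Tendsto (fun n => Q' 𝕜 n f) atTop (𝓝 f)}
  add_mem' := by
    intro f g hf hg
    show Tendsto (fun n => Q' 𝕜 n (f + g)) atTop (𝓝 (f + g))
    have := Tendsto.add hf hg
    simpa only [map_add] using this
  zero_mem' := by
    show Tendsto (fun n => Q' 𝕜 n (0 : L 𝕜)) atTop (𝓝 0)
    simp only [map_zero]
    exact tendsto_const_nhds
  smul_mem' := by
    intro c f hf
    show Tendsto (fun n => Q' 𝕜 n (c • f)) atTop (𝓝 (c • f))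
    have := Tendsto.const_smul hf c
    simpa only [map_smul] using this

lemma mem_Hs {f : L 𝕜} : f ∈ Hs 𝕜 ↔ Tendsto (fun n => Q' 𝕜 n f) atTop (𝓝 f) := Iff.rfl

lemma mem_Hs_of_level {f : L 𝕜} {n : ℕ} (h : Q' 𝕜 n f = f) : f ∈ Hs 𝕜 := by
  rw [mem_Hs]
  refine tendsto_const_nhds.congr' ?_
  filter_upwards [eventually_ge_atTop n] with m hm
  rw [← h, Q'_Q', min_eq_right hm]

lemma isClosed_Hs : IsClosed (Hs 𝕜 : Set (L 𝕜)) := by
  refine isClosed_of_closure_subset fun f hf => ?_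
  show Tendsto (fun n => Q' 𝕜 n f) atTop (𝓝 f)
  rw [Metric.tendsto_atTop]
  intro ε hε
  obtain ⟨g, hg, hfg⟩ := Metric.mem_closure_iff.1 hf (ε / 3) (by positivity)
  obtain ⟨N, hN⟩ := (Metric.tendsto_atTop.1 (mem_Hs.1 hg)) (ε / 3) (by positivity)
  refine ⟨N, fun n hn => ?_⟩
  have h1 := hN n hn
  have h2 : dist (Q' 𝕜 n f) (Q' 𝕜 n g) ≤ dist f g := by
    rw [dist_eq_norm, dist_eq_norm, ← map_sub]
    exact norm_pull_apply_le _ _ _
  calc dist (Q' 𝕜 n f) f ≤ dist (Q' 𝕜 n f) (Q' 𝕜 n g) + dist (Q' 𝕜 n g) g + dist g f := dist_triangle4 _ _ _ _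
    _ < ε := by rw [dist_comm g f]; linarith

variable (𝕜) in
/-- the Banach space -/
abbrev H : Type := Hs 𝕜

instance : CompleteSpace (H 𝕜) := (isClosed_Hs (𝕜 := 𝕜)).completeSpace_coe

/-- an operator on bounded functions which preserves levels acts on `H` -/
lemma mapsTo_of_level {T : L 𝕜 →L[𝕜] L 𝕜} (hT : ∀ᶠ n in atTop, ∀ f : L 𝕜, T (Q' 𝕜 n f) ∈ Hs 𝕜)
    {f : L 𝕜} (hf : f ∈ Hs 𝕜) : T f ∈ Hs 𝕜 := by
  have h1 : Tendsto (fun n => T (Q' 𝕜 n f)) atTop (𝓝 (T f)) :=
    (T.continuous.tendsto _).comp (mem_Hs.1 hf)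
  exact isClosed_Hs.mem_of_tendsto h1 (hT.mono fun n hn => hn f)

/-- the restriction of an operator to `H` -/
noncomputable def res (T : L 𝕜 →L[𝕜] L 𝕜) (hT : ∀ f ∈ Hs 𝕜, T f ∈ Hs 𝕜) : H 𝕜 →L[𝕜] H 𝕜 :=
  (T.comp (Hs 𝕜).subtypeL).codRestrict (Hs 𝕜) fun f => hT f f.2

lemma res_coe (T : L 𝕜 →L[𝕜] L 𝕜) (hT : ∀ f ∈ Hs 𝕜, T f ∈ Hs 𝕜) (f : H 𝕜) :
    (res T hT f : L 𝕜) = T f := rfl

lemma norm_res_le {T : L 𝕜 →L[𝕜] L 𝕜} (hT : ∀ f ∈ Hs 𝕜, T f ∈ Hs 𝕜) (h1 : ‖T‖ ≤ 1) :
    ‖res T hT‖ ≤ 1 := by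
  refine ContinuousLinearMap.opNorm_le_bound _ zero_le_one fun f => ?_
  show ‖(T f : L 𝕜)‖ ≤ 1 * ‖(f : L 𝕜)‖
  exact (T.le_opNorm _).trans (mul_le_mul_of_nonneg_right h1 (norm_nonneg _))

variable (𝕜) in
/-- the projections -/
noncomputable def Q (n : ℕ) : H 𝕜 →L[𝕜] H 𝕜 :=
  res (Q' 𝕜 n) fun f _ => mem_Hs_of_level (n := n) (by rw [Q'_Q', min_self])

lemma Q_apply (n : ℕ) (f : H 𝕜) (t : List K) :
    (Q 𝕜 n f : L 𝕜) t = if t.length ≤ n then (f : L 𝕜) (trw n t) else 0 := by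
  unfold Q
  rw [res_coe, Q'_apply]

lemma Q_Q (m n : ℕ) (f : H 𝕜) : Q 𝕜 m (Q 𝕜 n f) = Q 𝕜 (min m n) f :=
  Subtype.ext (Q'_Q' m n (f : L 𝕜))

lemma norm_Q (n : ℕ) : ‖(Q 𝕜 n : H 𝕜 →L[𝕜] H 𝕜)‖ ≤ 1 := norm_res_le _ (norm_pull_le _ _)

lemma Q_lim (f : H 𝕜) : Tendsto (fun n => Q 𝕜 n f) atTop (𝓝 f) := by
  rw [tendsto_subtype_rng]
  exact mem_Hs.1 f.2

variable (𝕜) in
/-- left translations on all bounded functions -/
noncomputable def Lop' (a : List K) : L 𝕜 →L[𝕜] L 𝕜 := pull 𝕜 (fun t => a ++ t) Set.univ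

lemma Lop'_apply (a : List K) (f : L 𝕜) (t : List K) : Lop' 𝕜 a f t = f (a ++ t) := by
  unfold Lop'
  rw [pull_apply, Set.indicator_univ]

variable (𝕜) in
/-- right translations on all bounded functions -/
noncomputable def Rop' (a : List K) : L 𝕜 →L[𝕜] L 𝕜 := pull 𝕜 (fun t => t ++ a) Set.univ

lemma Rop'_apply (a : List K) (f : L 𝕜) (t : List K) : Rop' 𝕜 a f t = f (t ++ a) := by
  unfold Rop'
  rw [pull_apply, Set.indicator_univ]

lemma Q'_Lop'_Q' (n : ℕ) (a : List K) (f : L 𝕜) : Q' 𝕜 n (Lop' 𝕜 a (Q' 𝕜 n f)) = Lop' 𝕜 a (Q' 𝕜 n f) := by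
  ext t
  rw [Q'_apply, Lop'_apply, Lop'_apply, Q'_apply, Q'_apply]
  simp only [List.length_append, length_trw, trw_append, trw_trw, min_self]
  by_cases h1 : t.length ≤ n
  · rw [if_pos h1]
  · rw [if_neg h1, if_neg (by omega)]

lemma Q'_Rop'_Q' (n : ℕ) (a : List K) (f : L 𝕜) : Q' 𝕜 n (Rop' 𝕜 a (Q' 𝕜 n f)) = Rop' 𝕜 a (Q' 𝕜 n f) := by
  ext t
  rw [Q'_apply, Rop'_apply, Rop'_apply, Q'_apply, Q'_apply]
  simp only [List.length_append, length_trw, trw_append, trw_trw, min_self]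
  by_cases h1 : t.length ≤ n
  · rw [if_pos h1]
  · rw [if_neg h1, if_neg (by omega)]

variable (𝕜) in
/-- left translations -/
noncomputable def Lop (a : List K) : H 𝕜 →L[𝕜] H 𝕜 :=
  res (Lop' 𝕜 a) fun _ hf => mapsTo_of_level
    (Eventually.of_forall fun n g => mem_Hs_of_level (Q'_Lop'_Q' n a g)) hf

variable (𝕜) in
/-- right translations -/
noncomputable def Rop (a : List K) : H 𝕜 →L[𝕜] H 𝕜 :=
  res (Rop' 𝕜 a) fun _ hf => mapsTo_of_level
    (Eventually.of_forall fun n g => mem_Hs_of_level (Q'_Rop'_Q' n a g)) hf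

lemma Lop_apply (a : List K) (f : H 𝕜) (t : List K) :
    (Lop 𝕜 a f : L 𝕜) t = (f : L 𝕜) (a ++ t) := Lop'_apply a (f : L 𝕜) t

lemma Rop_apply (a : List K) (f : H 𝕜) (t : List K) :
    (Rop 𝕜 a f : L 𝕜) t = (f : L 𝕜) (t ++ a) := Rop'_apply a (f : L 𝕜) t

lemma norm_Lop (a : List K) : ‖(Lop 𝕜 a : H 𝕜 →L[𝕜] H 𝕜)‖ ≤ 1 := norm_res_le _ (norm_pull_le _ _)

lemma Q_Lop_Q (n : ℕ) (a : List K) (f : H 𝕜) : Q 𝕜 n (Lop 𝕜 a (Q 𝕜 n f)) = Lop 𝕜 a (Q 𝕜 n f) :=
  Subtype.ext (Q'_Lop'_Q' n a (f : L 𝕜))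

lemma Lop_Rop (a b : List K) (f : H 𝕜) : Lop 𝕜 a (Rop 𝕜 b f) = Rop 𝕜 b (Lop 𝕜 a f) := by
  ext t
  rw [Lop_apply, Rop_apply, Rop_apply, Lop_apply, List.append_assoc]

/-- functions are equal if they have the same values -/
lemma ext_H {f g : H 𝕜} (h : ∀ t, (f : L 𝕜) t = (g : L 𝕜) t) : f = g := by
  ext t
  exact h t

/-- the finite set of truncated words -/
lemma finite_words (n : ℕ) : {s : List K | ∃ t : List K, t.length ≤ n ∧ s = trw n t}.Finite := by
  let e : (Fin n → Bool) → K := fun w k => if h : k < n then w ⟨k, h⟩ else false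
  have h1 : {l : List (Fin n → Bool) | l.length ≤ n}.Finite := List.finite_length_le _ n
  refine (h1.image (List.map e)).subset ?_
  rintro _ ⟨t, ht, rfl⟩
  refine ⟨t.map (fun σ i => σ i), by simpa using ht, ?_⟩
  rw [List.map_map]
  unfold trw
  congr 1

lemma Q_fin (n : ℕ) : FiniteDimensional 𝕜 (LinearMap.range (Q 𝕜 n : H 𝕜 →ₗ[𝕜] H 𝕜)) := by
  set F := {s : List K | ∃ t : List K, t.length ≤ n ∧ s = trw n t} with hF
  have hfin : Finite F := (finite_words n).to_subtype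
  let ev : LinearMap.range (Q 𝕜 n : H 𝕜 →ₗ[𝕜] H 𝕜) →ₗ[𝕜] (F → 𝕜) :=
    { toFun := fun f s => ((f : H 𝕜) : L 𝕜) s
      map_add' := fun f g => by ext s; rfl
      map_smul' := fun c f => by ext s; rfl }
  refine FiniteDimensional.of_injective ev ?_
  rintro ⟨_, ⟨f, rfl⟩⟩ ⟨_, ⟨g, rfl⟩⟩ hfg
  refine Subtype.ext (ext_H fun t => ?_)
  have key : ∀ s : F, (Q 𝕜 n f : L 𝕜) s = (Q 𝕜 n g : L 𝕜) s := fun s => congrFun hfg s
  show (Q 𝕜 n f : L 𝕜) t = (Q 𝕜 n g : L 𝕜) t
  by_cases ht : t.length ≤ n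
  · have h1 := key ⟨trw n t, t, ht, rfl⟩
    rw [Q_apply, Q_apply, length_trw, if_pos ht, if_pos ht, trw_trw, min_self] at h1
    rw [Q_apply, Q_apply, if_pos ht, if_pos ht, h1]
  · rw [Q_apply, Q_apply, if_neg ht, if_neg ht]

lemma Lop_nil : (Lop 𝕜 [] : H 𝕜 →L[𝕜] H 𝕜) = 1 := by
  refine ContinuousLinearMap.ext fun f => ext_H fun t => ?_
  rw [Lop_apply]
  rfl

variable (𝕜) in
/-- the system -/
noncomputable def S : HSys 𝕜 (H 𝕜) where
  Q := Q 𝕜
  W := fun _ => Set.range fun w : List (List Bool) => Lop 𝕜 (w.map ext)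
  mul := fun m n => ContinuousLinearMap.ext fun f => Q_Q m n f
  norm := fun n => norm_Q n
  fin := fun n => Q_fin n
  lim := fun f => Q_lim f
  W_count := fun _ => Set.countable_range _
  W_norm := by
    rintro n _ ⟨w, rfl⟩
    exact norm_Lop _
  W_one := fun _ => ⟨[], Lop_nil⟩
  W_map := by
    rintro n _ ⟨w, rfl⟩
    exact ⟨n, ContinuousLinearMap.ext fun f => Q_Lop_Q n _ f⟩

end Sp

end Pool.Agent.L5helper82.UQ
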